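import Pool.Agent.H.MP_08eaf3_pr.Defs

/-!
# Part I: elementary facts about `lse` and `EL`
-/

set_option autoImplicit false

open MeasureTheory ProbabilityTheory Filter Topology Matrix

namespace SKC.I

variable {Ω ι : Type}

theorem lse_mono {B : Finset Ω} (hB : B.Nonempty) {a b : Ω → ℝ} (h : ∀ ω ∈ B, a ω ≤ b ω) :
    lse B a ≤ lse B b := by
  unfold lse
  apply Real.log_le_log
  · exact Finset.sum_pos (fun ω _ => Real.exp_pos _) hB
  · exact Finset.sum_le_sum (fun ω hω => Real.exp_le_exp.2 (h ω hω))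

theorem lse_mono_set {B B' : Finset Ω} (hB : B.Nonempty) (h : B ⊆ B') (a : Ω → ℝ) :
    lse B a ≤ lse B' a := by
  unfold lse
  apply Real.log_le_log
  · exact Finset.sum_pos (fun ω _ => Real.exp_pos _) hB
  · exact Finset.sum_le_sum_of_subset_of_nonneg h (fun ω _ _ => (Real.exp_pos _).le)

theorem lse_add_const {B : Finset Ω} (hB : B.Nonempty) (a : Ω → ℝ) (c : ℝ) :
    lse B (fun ω => a ω + c) = lse B a + c := by
  unfold lse
  have h1 : 0 < ∑ ω ∈ B, Real.exp (a ω) := Finset.sum_pos (fun ω _ => Real.exp_pos _) hB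
  have h2 : ∑ ω ∈ B, Real.exp (a ω + c) = (∑ ω ∈ B, Real.exp (a ω)) * Real.exp c := by
    rw [Finset.sum_mul]
    exact Finset.sum_congr rfl (fun ω _ => Real.exp_add _ _)
  rw [h2, Real.log_mul h1.ne' (Real.exp_pos _).ne', Real.log_exp]

theorem lse_midpoint {B : Finset Ω} (hB : B.Nonempty) (a b : Ω → ℝ) :
    2 * lse B a ≤ lse B (fun ω => a ω + b ω) + lse B (fun ω => a ω - b ω) := by
  unfold lse
  have h1 : 0 < ∑ ω ∈ B, Real.exp (a ω) := Finset.sum_pos (fun ω _ => Real.exp_pos _) hB
  have h2 : 0 < ∑ ω ∈ B, Real.exp (a ω + b ω) := Finset.sum_pos (fun ω _ => Real.exp_pos _) hB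
  have h3 : 0 < ∑ ω ∈ B, Real.exp (a ω - b ω) := Finset.sum_pos (fun ω _ => Real.exp_pos _) hB
  rw [← Real.log_mul h2.ne' h3.ne']
  have h4 : (2 : ℝ) * Real.log (∑ ω ∈ B, Real.exp (a ω)) =
      Real.log ((∑ ω ∈ B, Real.exp (a ω)) ^ 2) := by
    rw [Real.log_pow]; norm_num
  rw [h4]
  apply Real.log_le_log (by positivity)
  have h5 := Finset.sum_mul_sq_le_sq_mul_sq B (fun ω => Real.exp ((a ω + b ω) / 2))
    (fun ω => Real.exp ((a ω - b ω) / 2))
  have e1 : ∑ ω ∈ B, Real.exp ((a ω + b ω) / 2) * Real.exp ((a ω - b ω) / 2) =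
      ∑ ω ∈ B, Real.exp (a ω) := by
    refine Finset.sum_congr rfl (fun ω _ => ?_)
    rw [← Real.exp_add]; congr 1; ring
  have e2 : ∀ y : ℝ, Real.exp (y / 2) ^ 2 = Real.exp y := by
    intro y
    rw [← Real.exp_nat_mul]; congr 1; push_cast; ring
  rw [e1] at h5
  simp only [e2] at h5
  exact h5

/-- Proof: `|lse B f| ≤ ∑ ω ∈ B, |f ω| + log (card B)`, and `|dot x v + a|` is integrable. -/
theorem abs_lse_le {B : Finset Ω} (hB : B.Nonempty) (f : Ω → ℝ) :
    |lse B f| ≤ (∑ ω ∈ B, |f ω|) + Real.log B.card := by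
  have hc : (0 : ℝ) < B.card := by exact_mod_cast hB.card_pos
  have hc1 : (1 : ℝ) ≤ B.card := by exact_mod_cast hB.card_pos
  have hlog : 0 ≤ Real.log B.card := Real.log_nonneg hc1
  have hle : ∀ ω ∈ B, |f ω| ≤ ∑ ω ∈ B, |f ω| := fun ω hω =>
    Finset.single_le_sum (f := fun ω => |f ω|) (fun ω _ => abs_nonneg _) hω
  rw [abs_le]
  constructor
  · obtain ⟨ω, hω⟩ := hB
    have h1 : f ω ≤ lse B f := by
      unfold lse
      rw [Real.le_log_iff_exp_le (Finset.sum_pos (fun ω _ => Real.exp_pos _) ⟨ω, hω⟩)]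
      exact Finset.single_le_sum (f := fun ω => Real.exp (f ω)) (fun ω _ => (Real.exp_pos _).le) hω
    have h2 := hle ω hω
    have h3 := neg_abs_le (f ω)
    linarith
  · have h1 : lse B f ≤ Real.log (B.card * Real.exp (∑ ω ∈ B, |f ω|)) := by
      unfold lse
      apply Real.log_le_log (Finset.sum_pos (fun ω _ => Real.exp_pos _) hB)
      have : ∑ ω ∈ B, Real.exp (f ω) ≤ ∑ ω ∈ B, Real.exp (∑ ω ∈ B, |f ω|) :=
        Finset.sum_le_sum (fun ω hω => Real.exp_le_exp.2 ((le_abs_self _).trans (hle ω hω)))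
      rw [Finset.sum_const, nsmul_eq_mul] at this
      exact this
    rw [Real.log_mul hc.ne' (Real.exp_pos _).ne', Real.log_exp] at h1
    linarith

variable [Fintype ι]

theorem continuous_dot (v : ι → ℝ) : Continuous (fun x : ι → ℝ => dot x v) := by
  unfold dot
  fun_prop

theorem continuous_lse {B : Finset Ω} (hB : B.Nonempty) (v : Ω → ι → ℝ) (a : Ω → ℝ) :
    Continuous (fun x : ι → ℝ => lse B (fun ω => dot x (v ω) + a ω)) := by
  unfold lse
  apply Continuous.log
  · exact continuous_finsetSum _ (fun ω _ => Real.continuous_exp.comp ((continuous_dot _).add continuous_const))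
  · intro x
    exact (Finset.sum_pos (fun ω _ => Real.exp_pos _) hB).ne'

theorem integrable_coord (i : ι) : Integrable (fun x : ι → ℝ => x i) (gam ι) := by
  have h := (measurePreserving_eval (fun _ : ι => gaussianReal 0 1) i)
  have h1 : Integrable (fun x : ℝ => x) (gaussianReal 0 1) := by
    have h0 : MemLp (fun x : ℝ => x) 1 (gaussianReal 0 1) := by
      have h2 := memLp_id_gaussianReal (μ := 0) (v := 1) 1
      have h3 : ((1 : NNReal) : ENNReal) = 1 := by simp
      rw [h3] at h2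
      exact h2
    exact memLp_one_iff_integrable.1 h0
  exact h.integrable_comp_of_integrable h1

theorem integrable_dot (v : ι → ℝ) : Integrable (fun x : ι → ℝ => dot x v) (gam ι) := by
  unfold dot
  exact integrable_finsetSum _ (fun i _ => (integrable_coord i).mul_const _)

theorem integrable_lse {B : Finset Ω} (hB : B.Nonempty) (v : Ω → ι → ℝ) (a : Ω → ℝ) :
    Integrable (fun x => lse B (fun ω => dot x (v ω) + a ω)) (gam ι) := by
  have h1 : Integrable (fun x => (∑ ω ∈ B, |dot x (v ω) + a ω|) + Real.log B.card) (gam ι) := by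
    refine Integrable.add (integrable_finsetSum _ (fun ω _ => ?_)) (integrable_const _)
    exact ((integrable_dot (v ω)).add (integrable_const _)).abs
  refine h1.mono' (continuous_lse hB v a).aestronglyMeasurable (Eventually.of_forall fun x => ?_)
  rw [Real.norm_eq_abs]
  exact abs_lse_le hB _

theorem EL_mono {B : Finset Ω} (hB : B.Nonempty) (v : Ω → ι → ℝ) {a b : Ω → ℝ}
    (h : ∀ ω ∈ B, a ω ≤ b ω) : EL B v a ≤ EL B v b := by
  unfold EL
  refine integral_mono (integrable_lse hB v a) (integrable_lse hB v b) (fun x => ?_)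
  exact lse_mono hB (fun ω hω => by have := h ω hω; linarith)

theorem EL_add_const {B : Finset Ω} (hB : B.Nonempty) (v : Ω → ι → ℝ) (a : Ω → ℝ) (c : ℝ) :
    EL B v (fun ω => a ω + c) = EL B v a + c := by
  unfold EL
  have h1 : ∀ x : ι → ℝ, lse B (fun ω => dot x (v ω) + (a ω + c)) =
      lse B (fun ω => dot x (v ω) + a ω) + c := by
    intro x
    rw [← lse_add_const hB]
    congr 1
    funext ω
    ring
  simp only [h1]
  rw [integral_add (integrable_lse hB v a) (integrable_const _)]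
  simp

theorem EL_midpoint {B : Finset Ω} (hB : B.Nonempty) (v : Ω → ι → ℝ) (a b : Ω → ℝ) :
    2 * EL B v a ≤ EL B v (fun ω => a ω + b ω) + EL B v (fun ω => a ω - b ω) := by
  unfold EL
  rw [← integral_add (integrable_lse hB v _) (integrable_lse hB v _), ← integral_const_mul]
  refine integral_mono ((integrable_lse hB v a).const_mul 2)
    ((integrable_lse hB v _).add (integrable_lse hB v _)) (fun x => ?_)
  have h := lse_midpoint hB (fun ω => dot x (v ω) + a ω) b
  have e1 : (fun ω => dot x (v ω) + (a ω + b ω)) = fun ω => dot x (v ω) + a ω + b ω := by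
    funext ω; ring
  have e2 : (fun ω => dot x (v ω) + (a ω - b ω)) = fun ω => dot x (v ω) + a ω - b ω := by
    funext ω; ring
  rw [e1, e2]
  exact h

end SKC.I
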