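import Pool.Agent.H.MP_08eaf3_pr.Defs2

/-!
# Part I: near-optimal single paths with prescribed levels
-/

set_option autoImplicit false

open MeasureTheory ProbabilityTheory Filter Topology Matrix

namespace SKC.I

theorem PsiL_append {K : Type} [Fintype K] (β : K → ℝ) (l l' : List (Step K)) (F : (K → ℝ) → ℝ) :
    PsiL β (l ++ l') F = PsiL β l (PsiL β l' F) := by
  induction l with
  | nil => rfl
  | cons s l ih => rw [List.cons_append, PsiL, PsiL, ih]

theorem ChE_append {K : Type} [Fintype K] (β : K → ℝ) (l l' : List (Step K)) (F h : (K → ℝ) → ℝ) :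
    ChE β (l ++ l') F h = ChE β l (PsiL β l' F) (ChE β l' F h) := by
  induction l with
  | nil => rfl
  | cons s l ih => rw [List.cons_append, ChE, ChE, ih, PsiL_append]

theorem Qtot_append {K : Type} [Fintype K] (l l' : List (Step K)) :
    Qtot (l ++ l') = Qtot l + Qtot l' := by
  induction l with
  | nil => rw [List.nil_append, Qtot, zero_add]
  | cons s l ih => rw [List.cons_append, Qtot, Qtot, ih, add_assoc]

theorem corr_append {K : Type} [Fintype K] (β : K → ℝ) (l l' : List (Step K)) (Q : Matrix K K ℝ) :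
    corr β Q (l ++ l') = corr β Q l + corr β (Q + Qtot l) l' := by
  induction l generalizing Q with
  | nil => rw [List.nil_append, corr, Qtot, add_zero, zero_add]
  | cons s l ih => rw [List.cons_append, corr, corr, ih, Qtot, add_assoc Q, add_assoc (s.1 * _)]

/-- the merging property (theorem `PsiL_merge` of Part B) -/
def Merge (K : Type) [Fintype K] : Prop :=
  ∀ (β : K → ℝ) (m : ℝ), 0 ≤ m → ∀ (E1 E2 E : Matrix K K ℝ), E * Eᵀ = E1 * E1ᵀ + E2 * E2ᵀ →
    ∀ (l : List (Step K)) (F : (K → ℝ) → ℝ), LG F →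
    PsiL β ((m, E1) :: (m, E2) :: l) F = PsiL β ((m, E) :: l) F

theorem abs_sg (b : Bool) : |sg b| = 1 := by
  unfold sg
  split_ifs <;> simp

/-- the terminal functions have linear growth -/
theorem LG_psiEnd {K : Type} [Fintype K] [DecidableEq K] (φ : (K → Bool) → ℝ) (t : ℝ) :
    LG (psiEnd φ t) := by
  classical
  have hpos : ∀ z : K → ℝ, 0 < ∑ s : K → Bool, Real.exp ((∑ c, sg (s c) * z c) + t * φ s) :=
    fun z => Finset.sum_pos (fun s _ => Real.exp_pos _) Finset.univ_nonempty
  refine ⟨?_, ?_⟩
  · unfold psiEnd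
    apply Continuous.log
    · apply continuous_finsetSum
      intro s _
      apply Real.continuous_exp.comp
      fun_prop
    · intro z
      exact (hpos z).ne'
  · -- bounds
    let A : ℝ := ∑ s : K → Bool, |t * φ s|
    have hA : ∀ s : K → Bool, |t * φ s| ≤ A := fun s =>
      Finset.single_le_sum (f := fun s => |t * φ s|) (fun s _ => abs_nonneg _) (Finset.mem_univ s)
    have hA0 : 0 ≤ A := Finset.sum_nonneg (fun s _ => abs_nonneg _)
    let L : ℝ := Real.log (Fintype.card (K → Bool))
    have hc : (1 : ℝ) ≤ Fintype.card (K → Bool) := by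
      have : 0 < Fintype.card (K → Bool) := Fintype.card_pos
      exact_mod_cast this
    have hL : 0 ≤ L := Real.log_nonneg hc
    have hn1 : ∀ z : K → ℝ, 0 ≤ n1 z := fun z => Finset.sum_nonneg (fun c _ => abs_nonneg _)
    have hs : ∀ (s : K → Bool) (z : K → ℝ), |∑ c, sg (s c) * z c| ≤ n1 z := by
      intro s z
      refine (Finset.abs_sum_le_sum_abs _ _).trans (le_of_eq ?_)
      unfold n1
      refine Finset.sum_congr rfl (fun c _ => ?_)
      rw [abs_mul, abs_sg, one_mul]
    refine ⟨1 + A + L, fun z => ?_⟩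
    have h0 := hn1 z
    have hb : |psiEnd φ t z| ≤ n1 z + A + L := by
      unfold psiEnd
      rw [abs_le]
      constructor
      · have h1 : (∑ c, sg ((fun _ => true : K → Bool) c) * z c) + t * φ (fun _ => true) ≤
            Real.log (∑ s : K → Bool, Real.exp ((∑ c, sg (s c) * z c) + t * φ s)) := by
          rw [Real.le_log_iff_exp_le (hpos z)]
          exact Finset.single_le_sum
            (f := fun s : K → Bool => Real.exp ((∑ c, sg (s c) * z c) + t * φ s))
            (fun s _ => (Real.exp_pos _).le) (Finset.mem_univ (fun _ => true))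
        have h2 := hs (fun _ => true) z
        have h3 := hA (fun _ => true)
        have h4 := neg_abs_le (∑ c, sg ((fun _ => true : K → Bool) c) * z c)
        have h5 := neg_abs_le (t * φ (fun _ => true))
        linarith
      · have h1 : Real.log (∑ s : K → Bool, Real.exp ((∑ c, sg (s c) * z c) + t * φ s)) ≤
            Real.log (Fintype.card (K → Bool) * Real.exp (n1 z + A)) := by
          apply Real.log_le_log (hpos z)
          have : ∑ s : K → Bool, Real.exp ((∑ c, sg (s c) * z c) + t * φ s) ≤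
              ∑ s : K → Bool, Real.exp (n1 z + A) := by
            apply Finset.sum_le_sum
            intro s _
            apply Real.exp_le_exp.2
            have h2 := (le_abs_self _).trans (hs s z)
            have h3 := (le_abs_self _).trans (hA s)
            linarith
          rw [Finset.sum_const, nsmul_eq_mul, Finset.card_univ] at this
          exact this
        rw [Real.log_mul (by positivity) (Real.exp_pos _).ne', Real.log_exp] at h1
        linarith
    have h2 : n1 z + A + L ≤ (1 + A + L) * (1 + n1 z) := by nlinarith [mul_nonneg hA0 h0, mul_nonneg hL h0]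
    exact hb.trans h2

/-- splitting a step in the middle of a path does not change the functional -/
theorem Pf_split {K : Type} [Fintype K] [DecidableEq K] (hM : Merge K) (β : K → ℝ) (m : ℝ) (hm : 0 ≤ m)
    {E E1 E2 : Matrix K K ℝ} (hE : E * Eᵀ = E1 * E1ᵀ + E2 * E2ᵀ) (la lb : List (Step K))
    (φ : (K → Bool) → ℝ) (t : ℝ) :
    Pf β φ t (la ++ (m, E1) :: (m, E2) :: lb) = Pf β φ t (la ++ (m, E) :: lb) := by
  unfold Pf
  rw [PsiL_append, PsiL_append, hM β m hm E1 E2 E hE lb _ (LG_psiEnd φ t), corr_append, corr_append]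
  congr 2
  congr 1
  simp only [corr]
  rw [hE, ← add_assoc (0 + Qtot la)]
  ring

theorem Qtot_split {K : Type} [Fintype K] {m : ℝ}
    {E E1 E2 : Matrix K K ℝ} (hE : E * Eᵀ = E1 * E1ᵀ + E2 * E2ᵀ) (la lb : List (Step K)) :
    Qtot (la ++ (m, E1) :: (m, E2) :: lb) = Qtot (la ++ (m, E) :: lb) := by
  rw [Qtot_append, Qtot_append]
  simp only [Qtot]
  rw [hE, ← add_assoc (E1 * E1ᵀ)]

theorem valid_split {K : Type} {m : ℝ} {E E1 E2 : Matrix K K ℝ} {la lb : List (Step K)}
    (h : Valid (la ++ (m, E) :: lb)) : Valid (la ++ (m, E1) :: (m, E2) :: lb) := by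
  obtain ⟨h1, h2, l', E', h3⟩ := h
  rw [List.pairwise_append, List.pairwise_cons] at h1
  obtain ⟨h11, ⟨h12, h13⟩, h14⟩ := h1
  refine ⟨?_, ?_, ?_⟩
  · rw [List.pairwise_append, List.pairwise_cons, List.pairwise_cons]
    refine ⟨h11, ⟨?_, ?_, h13⟩, ?_⟩
    · intro a ha
      rcases List.mem_cons.1 ha with rfl | ha
      · exact le_refl _
      · exact h12 a ha
    · intro a ha
      exact h12 a ha
    · intro a ha b hb
      have hm := h14 a ha (m, E) (List.mem_cons_self)
      rcases List.mem_cons.1 hb with rfl | hb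
      · exact hm
      rcases List.mem_cons.1 hb with rfl | hb
      · exact hm
      · exact h14 a ha b (List.mem_cons_of_mem _ hb)
  · intro a ha
    have hm := h2 (m, E) (List.mem_append_right _ List.mem_cons_self)
    rcases List.mem_append.1 ha with ha | ha
    · exact h2 a (List.mem_append_left _ ha)
    rcases List.mem_cons.1 ha with rfl | ha
    · exact hm
    rcases List.mem_cons.1 ha with rfl | ha
    · exact hm
    · exact h2 a (List.mem_append_right _ (List.mem_cons_of_mem _ ha))
  · rcases List.eq_nil_or_concat lb with rfl | ⟨lb', x, rfl⟩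
    · have h5 : m = 1 := by
        have h6 := congrArg List.getLast? h3
        simp at h6
        exact h6.1
      subst h5
      exact ⟨la ++ [(1, E1)], E2, by simp⟩
    · have h5 : x = ((1 : ℝ), E') := by
        have h6 := congrArg List.getLast? h3
        simp [List.getLast?_append, List.getLast?_cons] at h6
        exact h6
      subst h5
      exact ⟨la ++ (m, E1) :: (m, E2) :: lb', E', by simp⟩

theorem unit_ext {A B : Matrix Unit Unit ℝ} (h : A () () = B () ()) : A = B := by
  ext i j
  exact h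

theorem Qtot_unit_nonneg (l : List (Step Unit)) : 0 ≤ Qtot l () () := by
  induction l with
  | nil => exact le_refl _
  | cons s l ih =>
    rw [Qtot, Matrix.add_apply, Matrix.mul_apply]
    simp only [Matrix.transpose_apply, Finset.univ_unique, Finset.sum_singleton]
    have := mul_self_nonneg (s.2 () default)
    exact add_nonneg this ih

theorem mul_unit (A : Matrix Unit Unit ℝ) : (A * Aᵀ) () () = A () () ^ 2 := by
  rw [Matrix.mul_apply]
  simp [sq]

/-- the step that contains the value `q` -/
theorem find_step (l : List (Step Unit)) (hl : l ≠ []) (q : ℝ) (hq : 0 ≤ q) (hq1 : q ≤ Qtot l () ()) :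
    ∃ la m E lb, l = la ++ (m, E) :: lb ∧ Qtot la () () ≤ q ∧ q ≤ Qtot la () () + E () () ^ 2 := by
  induction l generalizing q with
  | nil => exact absurd rfl hl
  | cons s l ih =>
    obtain ⟨m, E⟩ := s
    have e1 : Qtot ((m, E) :: l) () () = E () () ^ 2 + Qtot l () () := by
      rw [Qtot, Matrix.add_apply, mul_unit]
    by_cases h : q ≤ E () () ^ 2
    · refine ⟨[], m, E, l, rfl, hq, ?_⟩
      simp only [Qtot, Matrix.zero_apply, zero_add]
      exact h
    · push Not at h
      have hl' : l ≠ [] := by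
        rintro rfl
        rw [e1] at hq1
        simp only [Qtot, Matrix.zero_apply, add_zero] at hq1
        linarith
      obtain ⟨la, m', E', lb, h1, h2, h3⟩ := ih hl' (q - E () () ^ 2) (by linarith)
        (by rw [e1] at hq1; linarith)
      refine ⟨(m, E) :: la, m', E', lb, by rw [h1]; rfl, ?_, ?_⟩
      · rw [Qtot, Matrix.add_apply, mul_unit]; simp only; linarith
      · rw [Qtot, Matrix.add_apply, mul_unit]; simp only; linarith

/-- insertion of one level in the first part `l` of the path `l ++ r` -/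
theorem insert_level (hM : Merge Unit) (β : Unit → ℝ) (l r : List (Step Unit)) (hl : l ≠ []) (h : Valid (l ++ r)) (q : ℝ)
    (hq : 0 ≤ q) (hq1 : q ≤ Qtot l () ()) :
    ∃ l1 l2, l1 ≠ [] ∧ l2 ≠ [] ∧ Valid (l1 ++ (l2 ++ r)) ∧ Qtot l1 = (fun _ _ => q) ∧
      Qtot (l1 ++ l2) = Qtot l ∧ ∀ (φ : (Unit → Bool) → ℝ) (t : ℝ),
      Pf β φ t (l1 ++ (l2 ++ r)) = Pf β φ t (l ++ r) := by
  obtain ⟨la, m, E, lb, h1, h2, h3⟩ := find_step l hl q hq hq1
  subst h1
  have hm : 0 ≤ m := (h.2.1 (m, E) (by simp)).1
  let E1 : Matrix Unit Unit ℝ := fun _ _ => Real.sqrt (q - Qtot la () ())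
  let E2 : Matrix Unit Unit ℝ := fun _ _ => Real.sqrt (Qtot la () () + E () () ^ 2 - q)
  have hE : E * Eᵀ = E1 * E1ᵀ + E2 * E2ᵀ := by
    apply unit_ext
    rw [Matrix.add_apply, mul_unit, mul_unit, mul_unit]
    simp only [E1, E2]
    rw [Real.sq_sqrt (by linarith), Real.sq_sqrt (by linarith)]
    ring
  have e0 : (la ++ (m, E) :: lb) ++ r = la ++ (m, E) :: (lb ++ r) := by simp
  have e1 : (la ++ [(m, E1)]) ++ (((m, E2) :: lb) ++ r) = la ++ (m, E1) :: (m, E2) :: (lb ++ r) := by simp
  refine ⟨la ++ [(m, E1)], (m, E2) :: lb, by simp, by simp, ?_, ?_, ?_, ?_⟩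
  · rw [e1]
    rw [e0] at h
    exact valid_split h
  · apply unit_ext
    rw [Qtot_append, Matrix.add_apply]
    simp only [Qtot, Matrix.add_apply, Matrix.zero_apply, add_zero]
    rw [mul_unit]
    simp only [E1]
    rw [Real.sq_sqrt (by linarith)]
    ring
  · have e2 : (la ++ [(m, E1)]) ++ ((m, E2) :: lb) = la ++ (m, E1) :: (m, E2) :: lb := by simp
    rw [e2]
    exact Qtot_split hE la lb
  · intro φ t
    rw [e1, e0]
    exact Pf_split hM β m hm hE la (lb ++ r) φ t

/-- existence of near-optimal single paths with prescribed levels (`exists_singlePath` of IfB) -/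
theorem exists_singlePath (hM : Merge Unit) (b q q' δ : ℝ) (hδ : 0 < δ) (hq : 0 ≤ q) (hqq : q ≤ q')
    (hq' : q' ≤ 1) : ∃ s1 s2 s3 : List (Step Unit), SinglePath b q q' δ s1 s2 s3 := by
  have hne : {x : ℝ | ∃ l : List (Step Unit), Valid l ∧ Qtot l = 1 ∧
      x = Pf (fun _ => b) (fun _ => 0) 0 l}.Nonempty := by
    refine ⟨_, [((1 : ℝ), (1 : Matrix Unit Unit ℝ))], ⟨?_, ?_, [], 1, rfl⟩, ?_, rfl⟩
    · exact List.pairwise_singleton _ _
    · intro a ha
      rw [List.mem_singleton] at ha
      subst ha
      norm_num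
    · simp [Qtot]
  obtain ⟨x, ⟨l, hv, hQ, rfl⟩, hx⟩ := exists_lt_of_csInf_lt hne
    (show sInf _ < Fo b + δ by unfold Fo; linarith)
  have hl : l ≠ [] := by
    obtain ⟨_, _, l', E, h⟩ := hv
    rw [h]; simp
  have hv0 : Valid (l ++ []) := by rw [List.append_nil]; exact hv
  obtain ⟨l12, l3, h1, h2, h3, h4, h5, h6⟩ := insert_level hM (fun _ => b) l [] hl hv0 q' (hq.trans hqq)
    (by rw [hQ]; simpa using hq')
  rw [List.append_nil] at h3
  obtain ⟨l1, l2, g1, g2, g3, g4, g5, g6⟩ := insert_level hM (fun _ => b) l12 l3 h1 h3 q hq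
    (by rw [h4]; exact hqq)
  refine ⟨l1, l2, l3, g3, h2, g4, g5.trans h4, ?_, ?_⟩
  · rw [← List.append_assoc, Qtot_append, g5, ← Qtot_append, h5, hQ]
  · have k1 := g6 (fun _ => 0) 0
    have k2 := h6 (fun _ => 0) 0
    rw [List.append_nil, List.append_nil] at k2
    rw [k1, k2]
    exact hx.le

end SKC.I
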