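import Pool.Agent.H.MP_08eaf3_pr.I.Lse

/-!
# Part I: separation of the two temperatures in an upper bound
-/

set_option autoImplicit false

open MeasureTheory ProbabilityTheory Filter Topology Matrix

namespace SKC.I

variable {J : Type} {N : ℕ}

/-- the spins of kind `c` -/
def sig (c : Fin 2) (ρ : Cfg (J × Fin 2) N) : Cfg (J × Unit) N := fun i p => ρ i (p.1, c)

/-- the spins of kind `c` of the replica `a` -/
def tau (c : Fin 2) (a : J) (ρ : Cfg (J × Fin 2) N) : Cfg Unit N := fun i _ => ρ i (a, c)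

theorem dot_add {ι : Type} [Fintype ι] (x v w : ι → ℝ) : dot x (v + w) = dot x v + dot x w := by
  unfold dot
  rw [← Finset.sum_add_distrib]
  exact Finset.sum_congr rfl (fun i _ => by rw [Pi.add_apply]; ring)

theorem dot_sum {ι : Type} [Fintype ι] {A : Type} (s : Finset A) (x : ι → ℝ) (v : A → ι → ℝ) :
    dot x (∑ a ∈ s, v a) = ∑ a ∈ s, dot x (v a) := by
  unfold dot
  rw [Finset.sum_comm]
  refine Finset.sum_congr rfl (fun i _ => ?_)
  rw [Finset.sum_apply, Finset.mul_sum]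

theorem sum_two {c c' : Fin 2} (hc : c ≠ c') (f : Fin 2 → ℝ) : ∑ d, f d = f c + f c' := by
  rw [Fin.sum_univ_two]
  fin_cases c <;> fin_cases c' <;> simp_all [add_comm]

theorem vH_split [Fintype J] (b1 b2 : ℝ) {c c' : Fin 2} (hc : c ≠ c') (ρ : Cfg (J × Fin 2) N) :
    vH (beN b1 b2 J) N ρ = vH (fun _ => be b1 b2 c) N (sig c ρ) +
      ∑ a, vH (fun _ => be b1 b2 c') N (tau c' a ρ) := by
  funext p
  rw [Pi.add_apply, Finset.sum_apply]
  unfold vH
  rw [← Finset.sum_div, ← add_div]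
  congr 1
  rw [Fintype.sum_prod_type, Fintype.sum_prod_type, ← Finset.sum_add_distrib]
  refine Finset.sum_congr rfl (fun a _ => ?_)
  rw [sum_two hc]
  simp [beN, sig, tau]

theorem dot_vH_split [Fintype J] (b1 b2 : ℝ) {c c' : Fin 2} (hc : c ≠ c') (ρ : Cfg (J × Fin 2) N)
    (x : Fin N × Fin N → ℝ) :
    dot x (vH (beN b1 b2 J) N ρ) = dot x (vH (fun _ => be b1 b2 c) N (sig c ρ)) +
      ∑ a, dot x (vH (fun _ => be b1 b2 c') N (tau c' a ρ)) := by
  rw [vH_split b1 b2 hc, dot_add, dot_sum]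

theorem pair_inj {c c' : Fin 2} (hc : c ≠ c') :
    Function.Injective (fun ρ : Cfg (J × Fin 2) N => (sig c ρ, fun a => tau c' a ρ)) := by
  intro ρ ρ' h
  simp only [Prod.mk.injEq] at h
  funext i p
  obtain ⟨a, d⟩ := p
  have h1 : ρ i (a, c) = ρ' i (a, c) := congrFun (congrFun h.1 i) (a, ())
  have h2 : ρ i (a, c') = ρ' i (a, c') := congrFun (congrFun (congrFun h.2 a) i) ()
  have h3 : d = c ∨ d = c' := by
    fin_cases c <;> fin_cases c' <;> fin_cases d <;> simp_all
  rcases h3 with rfl | rfl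
  · exact h1
  · exact h2

/-- pointwise separation -/
theorem lse_decouple [Fintype J] [DecidableEq J] (b1 b2 : ℝ) {c c' : Fin 2} (hc : c ≠ c')
    {E : Finset (Cfg (J × Fin 2) N)} (hE : E.Nonempty) {B : Finset (Cfg (J × Unit) N)}
    (hB : ∀ ρ ∈ E, sig c ρ ∈ B) (f : Cfg (J × Unit) N → ℝ) (x : Fin N × Fin N → ℝ) :
    lse E (fun ρ => dot x (vH (beN b1 b2 J) N ρ) + f (sig c ρ)) ≤
      lse B (fun σ => dot x (vH (fun _ => be b1 b2 c) N σ) + f σ) +
        Fintype.card J * lse (Finset.univ : Finset (Cfg Unit N))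
          (fun τ => dot x (vH (fun _ => be b1 b2 c') N τ) + 0) := by
  classical
  have hBne : B.Nonempty := by
    obtain ⟨ρ, hρ⟩ := hE
    exact ⟨_, hB ρ hρ⟩
  set A : Cfg (J × Unit) N → ℝ := fun σ => dot x (vH (fun _ => be b1 b2 c) N σ) + f σ with hA
  set T : Cfg Unit N → ℝ := fun τ => dot x (vH (fun _ => be b1 b2 c') N τ) + 0 with hT
  have hu : (Finset.univ : Finset (Cfg Unit N)).Nonempty := Finset.univ_nonempty
  have p1 : 0 < ∑ σ ∈ B, Real.exp (A σ) := Finset.sum_pos (fun ω _ => Real.exp_pos _) hBne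
  have p2 : 0 < ∑ τ : Cfg Unit N, Real.exp (T τ) := Finset.sum_pos (fun ω _ => Real.exp_pos _) hu
  unfold lse
  rw [← Real.log_pow, ← Real.log_mul p1.ne' (pow_pos p2 _).ne']
  apply Real.log_le_log (Finset.sum_pos (fun ω _ => Real.exp_pos _) hE)
  let g : Cfg (J × Unit) N × (J → Cfg Unit N) → ℝ := fun p =>
    Real.exp (A p.1) * ∏ a, Real.exp (T (p.2 a))
  have e1 : ∑ ρ ∈ E, Real.exp (dot x (vH (beN b1 b2 J) N ρ) + f (sig c ρ)) =
      ∑ ρ ∈ E, g (sig c ρ, fun a => tau c' a ρ) := by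
    refine Finset.sum_congr rfl (fun ρ _ => ?_)
    simp only [g, hA, hT]
    rw [← Real.exp_sum, ← Real.exp_add, dot_vH_split b1 b2 hc]
    congr 1
    simp only [add_zero]
    ring
  have e2 : ∑ ρ ∈ E, g (sig c ρ, fun a => tau c' a ρ) =
      ∑ p ∈ E.image (fun ρ => (sig c ρ, fun a => tau c' a ρ)), g p :=
    (Finset.sum_image (fun a _ b _ h => pair_inj hc h)).symm
  have e3 : ∑ p ∈ E.image (fun ρ => (sig c ρ, fun a => tau c' a ρ)), g p ≤
      ∑ p ∈ B ×ˢ (Finset.univ : Finset (J → Cfg Unit N)), g p := by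
    apply Finset.sum_le_sum_of_subset_of_nonneg
    · intro p hp
      obtain ⟨ρ, hρ, rfl⟩ := Finset.mem_image.1 hp
      exact Finset.mem_product.2 ⟨hB ρ hρ, Finset.mem_univ _⟩
    · intro p _ _
      exact mul_nonneg (Real.exp_pos _).le (Finset.prod_nonneg (fun a _ => (Real.exp_pos _).le))
  have e4 : ∑ p ∈ B ×ˢ (Finset.univ : Finset (J → Cfg Unit N)), g p =
      (∑ σ ∈ B, Real.exp (A σ)) * (∑ τ : Cfg Unit N, Real.exp (T τ)) ^ Fintype.card J := by
    rw [Finset.sum_product]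
    simp only [g]
    have e5 : (∑ τ : Cfg Unit N, Real.exp (T τ)) ^ Fintype.card J =
        ∑ τ : J → Cfg Unit N, ∏ a, Real.exp (T (τ a)) := by
      have := Finset.prod_univ_sum (fun _ : J => (Finset.univ : Finset (Cfg Unit N)))
        (fun _ τ => Real.exp (T τ))
      rw [Finset.prod_const, Finset.card_univ, Fintype.piFinset_univ] at this
      exact this
    rw [e5, Finset.sum_mul]
    refine Finset.sum_congr rfl (fun σ _ => ?_)
    rw [Finset.mul_sum]
  rw [e1, e2]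
  exact e3.trans e4.le

/-- separation of the free energies -/
theorem EL_decouple [Fintype J] [DecidableEq J] (b1 b2 : ℝ) {c c' : Fin 2} (hc : c ≠ c') (hN : 0 < N)
    {E : Finset (Cfg (J × Fin 2) N)} (hE : E.Nonempty) {B : Finset (Cfg (J × Unit) N)}
    (hB : ∀ ρ ∈ E, sig c ρ ∈ B) (f : Cfg (J × Unit) N → ℝ) :
    EL E (vH (beN b1 b2 J) N) (fun ρ => f (sig c ρ)) ≤
      EL B (vH (fun _ => be b1 b2 c) N) f + Fintype.card J * (N * FN (be b1 b2 c') N) := by
  have hBne : B.Nonempty := by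
    obtain ⟨ρ, hρ⟩ := hE
    exact ⟨_, hB ρ hρ⟩
  have hN0 : (N : ℝ) ≠ 0 := by
    have : (0 : ℝ) < N := by exact_mod_cast hN
    exact this.ne'
  have hu : (Finset.univ : Finset (Cfg Unit N)).Nonempty := Finset.univ_nonempty
  have e1 : (N : ℝ) * FN (be b1 b2 c') N =
      EL (Finset.univ : Finset (Cfg Unit N)) (vH (fun _ => be b1 b2 c') N) (fun _ => 0) := by
    unfold FN
    field_simp
  rw [e1]
  unfold EL
  rw [← integral_const_mul, ← integral_add (integrable_lse hBne _ _)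
    ((integrable_lse hu _ _).const_mul _)]
  refine integral_mono (integrable_lse hE _ _) ((integrable_lse hBne _ _).add
    ((integrable_lse hu _ _).const_mul _)) (fun x => ?_)
  exact lse_decouple b1 b2 hc hE hB f x

end SKC.I
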