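import Pool.Agent.H.MP_08eaf3_pr.I.Lse

/-!
# Part I: the touching lemma I1
-/

set_option autoImplicit false

open MeasureTheory ProbabilityTheory Filter Topology Matrix

namespace SKC.I

/-- `Full` gives infinitely many positive `N`. -/
theorem full_pos {b1 b2 : ℝ} {J : Type} [Fintype J] {E : ∀ N, Finset (Cfg (J × Fin 2) N)}
    (hF : Full b1 b2 E) {δ : ℝ} (hδ : 0 < δ) : ∃ N : ℕ, 0 < N ∧ (E N).Nonempty ∧
      (Fintype.card J : ℝ) * (Fo b1 + Fo b2) - δ ≤ EL (E N) (vH (beN b1 b2 J) N) (fun _ => 0) / N := by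
  obtain ⟨N, hN⟩ := ((hF δ hδ).and_eventually (eventually_gt_atTop 0)).exists
  exact ⟨N, hN.2, hN.1.1, hN.1.2⟩

/-- the touching lemma I1, at a fixed `t > 0`.
Proof: midpoint convexity of `t ↦ EL(t φ)` at `0`, upper bound by `B1` at `t` and by `B2` at `-t` (and conversely). -/
theorem full_slope {b1 b2 : ℝ} {J : Type} [Fintype J] {E : ∀ N, Finset (Cfg (J × Fin 2) N)}
    (hF : Full b1 b2 E) (φ : (J × Fin 2 → Bool) → ℝ) {B1 B2 : ℝ → ℝ} {d1 d2 C e t : ℝ} (ht : 0 < t)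
    (h1 : ∀ s, |s| = t → B1 s ≤ B1 0 + s * d1 + C * t ^ 2)
    (h2 : ∀ s, |s| = t → B2 s ≤ B2 0 + s * d2 + C * t ^ 2)
    (hB1 : ∀ s, |s| = t → ∀ N : ℕ, 0 < N → (E N).Nonempty →
      EL (E N) (vH (beN b1 b2 J) N) (fun ρ => s * ∑ i, φ (ρ i)) ≤ N * (B1 s + e))
    (hB2 : ∀ s, |s| = t → ∀ N : ℕ, 0 < N → (E N).Nonempty →
      EL (E N) (vH (beN b1 b2 J) N) (fun ρ => s * ∑ i, φ (ρ i)) ≤ N * (B2 s + e))
    (h01 : B1 0 ≤ Fintype.card J * (Fo b1 + Fo b2) + e)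
    (h02 : B2 0 ≤ Fintype.card J * (Fo b1 + Fo b2) + e) :
    |d1 - d2| ≤ 4 * e / t + 2 * C * t := by
  have key : ∀ s, |s| = t → -(4 * e) - 2 * (C * t ^ 2) ≤ s * (d1 - d2) := by
    intro s hs
    refine le_of_forall_pos_le_add (fun δ hδ => ?_)
    obtain ⟨N, hN, hne, hN1⟩ := full_pos hF (half_pos hδ)
    have hN0 : (0 : ℝ) < N := by exact_mod_cast hN
    have h3 := EL_midpoint hne (vH (beN b1 b2 J) N) (fun _ => (0 : ℝ))
      (fun ρ => s * ∑ i, φ (ρ i))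
    have e1 : (fun ρ : Cfg (J × Fin 2) N => (0 : ℝ) + s * ∑ i, φ (ρ i)) =
        fun ρ => s * ∑ i, φ (ρ i) := by funext ρ; ring
    have e2 : (fun ρ : Cfg (J × Fin 2) N => (0 : ℝ) - s * ∑ i, φ (ρ i)) =
        fun ρ => (-s) * ∑ i, φ (ρ i) := by funext ρ; ring
    rw [e1, e2] at h3
    have h4 := hB1 s hs N hN hne
    have h5 := hB2 (-s) (by rw [abs_neg]; exact hs) N hN hne
    have h6 := h1 s hs
    have h7 := h2 (-s) (by rw [abs_neg]; exact hs)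
    rw [le_div_iff₀ hN0] at hN1
    have h8 : 2 * (((Fintype.card J : ℝ) * (Fo b1 + Fo b2) - δ / 2) * N) ≤
        N * (B1 s + e) + N * (B2 (-s) + e) := by linarith
    have h9 : 2 * ((Fintype.card J : ℝ) * (Fo b1 + Fo b2) - δ / 2) ≤
        (B1 s + e) + (B2 (-s) + e) := by
      have : (2 * ((Fintype.card J : ℝ) * (Fo b1 + Fo b2) - δ / 2)) * N ≤
        ((B1 s + e) + (B2 (-s) + e)) * N := by linarith
      exact le_of_mul_le_mul_right this hN0
    linarith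
  have k1 := key t (abs_of_pos ht)
  have k2 := key (-t) (by rw [abs_neg]; exact abs_of_pos ht)
  have e3 : 4 * e / t + 2 * C * t = (4 * e + 2 * (C * t ^ 2)) / t := by
    field_simp
  rw [e3, le_div_iff₀ ht]
  rcases abs_cases (d1 - d2) with h | h
  · rw [h.1]; linarith
  · rw [h.1]; linarith

end SKC.I
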