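import Pool.Agent.H.MP_08eaf3_pr.Defs2
import Pool.Agent.H.MP_08eaf3_pr.I.Decouple

/-!
# Part I: dropping the other system in a tree (`EL_tree_le` of IfC)
-/

set_option autoImplicit false

open MeasureTheory ProbabilityTheory Filter Topology Matrix

namespace SKC.I

theorem mat_diag (u : ℝ) (c : Fin 2) : mat 1 1 u c c = 1 := by
  unfold mat
  fin_cases c <;> simp

theorem ov_sig {J : Type} {N : ℕ} (c : Fin 2) (ρ ρ' : Cfg (J × Fin 2) N) (p p' : J × Unit) :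
    ov (sig c ρ) (sig c ρ') p p' = ov ρ ρ' (p.1, c) (p'.1, c) := rfl

theorem mem_near {K : Type} [Fintype K] {N : ℕ} (D : Matrix K K ℝ) (ε : ℝ) (ρ : Cfg K N) :
    ρ ∈ near (N := N) D ε ↔ ∀ c c', |ov ρ ρ c c' - D c c'| ≤ ε := by
  classical
  unfold near
  constructor
  · intro h
    exact (Finset.mem_filter.1 h).2
  · intro h
    exact Finset.mem_filter.2 ⟨Finset.mem_univ _, h⟩

theorem sig_near (u : ℝ) (Q Q' : Matrix (Fin 2) (Fin 2) ℝ) (n k : ℕ) (c : Fin 2) (ε : ℝ) (N : ℕ)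
    (ρ : Cfg ((Fin n × Fin k) × Fin 2) N) (hρ : ρ ∈ near (N := N) (treeM n k u Q Q') ε) :
    sig c ρ ∈ near (K := (Fin n × Fin k) × Unit) (N := N)
        (treeG n k (fun _ _ => 1) (fun _ _ => Q c c) (fun _ _ => Q' c c)) ε := by
  rw [mem_near] at hρ ⊢
  intro p p'
  have h := hρ (p.1, c) (p'.1, c)
  rw [ov_sig]
  have e : treeM n k u Q Q' (p.1, c) (p'.1, c) =
      treeG n k (fun _ _ => 1) (fun _ _ => Q c c) (fun _ _ => Q' c c) p p' := by
    unfold treeM treeG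
    simp only [mat_diag]
  rw [← e]
  exact h

theorem EL_tree_le (b1 b2 u : ℝ) (Q Q' : Matrix (Fin 2) (Fin 2) ℝ)
    (n k : ℕ) (c c' : Fin 2) (hc : c ≠ c') (ε : ℝ) (N : ℕ) (hN : 0 < N)
    (hne : (near (N := N) (treeM n k u Q Q') ε).Nonempty)
    (φ : ((Fin n × Fin k) × Unit → Bool) → ℝ) (t : ℝ) :
    (near (K := (Fin n × Fin k) × Unit) (N := N)
        (treeG n k (fun _ _ => 1) (fun _ _ => Q c c) (fun _ _ => Q' c c)) ε).Nonempty ∧
    EL (near (N := N) (treeM n k u Q Q') ε) (vH (beN b1 b2 (Fin n × Fin k)) N)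
        (fun ρ => t * ∑ i, φ (fun p => ρ i (p.1, c))) ≤
      EL (near (K := (Fin n × Fin k) × Unit) (N := N)
          (treeG n k (fun _ _ => 1) (fun _ _ => Q c c) (fun _ _ => Q' c c)) ε)
        (vH (fun _ => be b1 b2 c) N) (fun ρ => t * ∑ i, φ (ρ i)) +
      (n : ℝ) * k * (N * FN (be b1 b2 c') N) := by
  refine ⟨?_, ?_⟩
  · obtain ⟨ρ, hρ⟩ := hne
    exact ⟨_, sig_near u Q Q' n k c ε N ρ hρ⟩
  · have h := EL_decouple (J := Fin n × Fin k) b1 b2 hc hN hne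
      (fun ρ hρ => sig_near u Q Q' n k c ε N ρ hρ) (fun σ => t * ∑ i, φ (σ i))
    rw [Fintype.card_prod, Fintype.card_fin, Fintype.card_fin, Nat.cast_mul] at h
    exact h

end SKC.I
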