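import Pool.Agent.H.MP_08eaf3_pr.IfB
import Pool.Agent.H.MP_08eaf3_pr.IfJ
import Pool.Agent.H.MP_08eaf3_pr.I.TreeLe
import Pool.Agent.H.MP_08eaf3_pr.I.Slope
import Pool.Agent.H.MP_08eaf3_pr.I.Split

/-!
# Part I: the general touching inequality for trees
-/

set_option autoImplicit false

open MeasureTheory ProbabilityTheory Filter Topology Matrix

namespace SKC.I

theorem psiEnd_zero {K : Type} [Fintype K] [DecidableEq K] (φ : (K → Bool) → ℝ) :
    psiEnd φ 0 = psiEnd (fun _ => 0) 0 := by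
  unfold psiEnd
  funext z
  simp only [zero_mul]

theorem Pf_zero {K : Type} [Fintype K] [DecidableEq K] (β : K → ℝ) (φ : (K → Bool) → ℝ)
    (l : List (Step K)) : Pf β φ 0 l = Pf β (fun _ => 0) 0 l := by
  unfold Pf
  rw [psiEnd_zero]

theorem be_pos {b1 b2 : ℝ} (hb1 : 0 < b1) (hb2 : 0 < b2) (c : Fin 2) : 0 < be b1 b2 c := by
  unfold be
  fin_cases c
  · exact hb1
  · exact hb2

/-- the general touching inequality: `B2` is a second upper bound for the perturbed tree free energy -/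
theorem touch_gen (b1 b2 u : ℝ) (hb1 : 0 < b1) (hb2 : 0 < b2) (Q Q' : Matrix (Fin 2) (Fin 2) ℝ)
    (hT : TreeFull b1 b2 u Q Q') (δ : ℝ) (hδ : 0 ≤ δ) (l1 l2 l3 : List (Step (Fin 2)))
    (hp : PairPath b1 b2 u Q Q' δ l1 l2 l3) (n k : ℕ) (hn : 0 < n) (hk : 0 < k)
    (φ : ((Fin n × Fin k) × Fin 2 → Bool) → ℝ) (hφ : ∀ s, |φ s| ≤ 1) (B2 : ℝ → ℝ) (d2 : ℝ)
    (h2 : ∀ s, B2 s ≤ B2 0 + s * d2 + s ^ 2 / 2)
    (h02 : B2 0 ≤ (n * k : ℝ) * (Fo b1 + Fo b2 + δ))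
    (hB2 : ∀ s : ℝ, ∀ η : ℝ, 0 < η → ∃ ε0 : ℝ, 0 < ε0 ∧ ∀ ε : ℝ, 0 < ε → ε ≤ ε0 → ∀ N : ℕ, 0 < N →
      (near (N := N) (treeM n k u Q Q') ε).Nonempty →
      EL (near (N := N) (treeM n k u Q Q') ε) (vH (beN b1 b2 (Fin n × Fin k)) N)
        (fun ρ => s * ∑ i, φ (ρ i)) ≤ N * (B2 s + η))
    (t : ℝ) (ht : 0 < t) :
    |ChE (beN b1 b2 (Fin n × Fin k)) (lift n k l1 l2 l3) F0 (spAvg φ) 0 - d2| ≤
      4 * ((n * k : ℝ) * δ) / t + t := by
  obtain ⟨hv, hne3, hQ1, hQ2, hQ3, hPf⟩ := hp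
  have hlv := lift_valid n k hn hk l1 l2 l3 hv hne3
  have hlQ := Qtot_lift n k hn hk l1 l2 l3
  rw [hQ1, hQ2, hQ3] at hlQ
  have hlP := Pf_lift (be b1 b2) n k hn hk l1 l2 l3 hv
  have hcard : (Fintype.card (Fin n × Fin k) : ℝ) = n * k := by
    rw [Fintype.card_prod, Fintype.card_fin, Fintype.card_fin, Nat.cast_mul]
  have hnk : (0 : ℝ) < n * k := by
    have h1 : (0 : ℝ) < n := by exact_mod_cast hn
    have h2 : (0 : ℝ) < k := by exact_mod_cast hk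
    exact mul_pos h1 h2
  have hδ0 : 0 ≤ (n * k : ℝ) * δ := mul_nonneg hnk.le hδ
  have hb0 : ∀ p, 0 ≤ beN b1 b2 (Fin n × Fin k) p := fun p => (be_pos hb1 hb2 p.2).le
  refine le_of_forall_pos_le_add (fun η hη => ?_)
  -- choose the errors
  set η1 : ℝ := η * t / 4 with hη1
  have hη1pos : 0 < η1 := by positivity
  obtain ⟨εa, hεa, hBa⟩ := hB2 t η1 hη1pos
  obtain ⟨εb, hεb, hBb⟩ := hB2 (-t) η1 hη1pos
  set S : ℝ := ∑ c, beN b1 b2 (Fin n × Fin k) c with hS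
  have hS0 : 0 ≤ S := Finset.sum_nonneg (fun c _ => hb0 c)
  obtain ⟨εc, hεc, hεc1⟩ : ∃ εc : ℝ, 0 < εc ∧ S ^ 2 * εc ^ 2 / 2 ≤ η1 := by
    refine ⟨Real.sqrt (2 * η1 / (S ^ 2 + 1)), Real.sqrt_pos.2 (by positivity), ?_⟩
    rw [Real.sq_sqrt (by positivity)]
    have : S ^ 2 * (2 * η1 / (S ^ 2 + 1)) / 2 = η1 * (S ^ 2 / (S ^ 2 + 1)) := by ring
    rw [this]
    have h3 : S ^ 2 / (S ^ 2 + 1) ≤ 1 := by
      rw [div_le_one (by positivity)]; linarith
    nlinarith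
  set ε : ℝ := min (min εa εb) εc with hε
  have hεpos : 0 < ε := lt_min (lt_min hεa hεb) hεc
  have hεa' : ε ≤ εa := (min_le_left _ _).trans (min_le_left _ _)
  have hεb' : ε ≤ εb := (min_le_left _ _).trans (min_le_right _ _)
  have hεc' : ε ≤ εc := min_le_right _ _
  have hF := hT n k hn hk ε hεpos
  have hmain := full_slope (C := 1 / 2) (e := (n * k : ℝ) * δ + η1) (d2 := d2) hF φ
    (B1 := fun s => Pf (beN b1 b2 (Fin n × Fin k)) φ s (lift n k l1 l2 l3)) (B2 := B2)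
    (d1 := ChE (beN b1 b2 (Fin n × Fin k)) (lift n k l1 l2 l3) F0 (spAvg φ) 0) ht ?_ ?_ ?_ ?_ ?_ ?_
  · have e1 : 4 * ((n * k : ℝ) * δ + η1) / t + 2 * (1 / 2) * t =
        4 * ((n * k : ℝ) * δ) / t + t + η := by
      rw [hη1]; field_simp; ring
    rw [e1] at hmain
    exact hmain
  · intro s hs
    have h := Pf_expand (beN b1 b2 (Fin n × Fin k)) φ hφ s (lift n k l1 l2 l3) hlv
    rw [Pf_zero _ φ]
    have hs2 : s ^ 2 = t ^ 2 := by rw [← hs, sq_abs]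
    rw [hs2] at h
    linarith
  · intro s hs
    have h := h2 s
    have hs2 : s ^ 2 = t ^ 2 := by rw [← hs, sq_abs]
    rw [hs2] at h
    linarith
  · intro s hs N hN hne
    have h := guerra (beN b1 b2 (Fin n × Fin k)) hb0 φ s (lift n k l1 l2 l3) hlv ε hεpos.le N hN _ hne
      (fun ρ hρ c c' => by
        have h5 := (mem_near _ _ _).1 hρ c c'
        rw [hlQ]
        exact h5)
    refine h.trans ?_
    have hN0 : (0 : ℝ) < N := by exact_mod_cast hN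
    have h6 : S ^ 2 * ε ^ 2 / 2 ≤ η1 := by
      refine le_trans ?_ hεc1
      have : ε ^ 2 ≤ εc ^ 2 := by
        apply pow_le_pow_left₀ hεpos.le hεc'
      have := mul_le_mul_of_nonneg_left this (sq_nonneg S)
      linarith
    have h8 : (N : ℝ) / 2 * (∑ c, beN b1 b2 (Fin n × Fin k) c) ^ 2 * ε ^ 2 =
        N * (S ^ 2 * ε ^ 2 / 2) := by rw [hS]; ring
    rw [h8]
    have h9 : S ^ 2 * ε ^ 2 / 2 ≤ (n * k : ℝ) * δ + η1 := by linarith
    have h10 := mul_le_mul_of_nonneg_left h9 hN0.le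
    linarith
  · intro s hs N hN hne
    have hN0 : (0 : ℝ) < N := by exact_mod_cast hN
    have hcase : s = t ∨ s = -t := by
      rcases abs_cases s with h | h
      · left; linarith
      · right; linarith
    have hk1 : EL (near (N := N) (treeM n k u Q Q') ε) (vH (beN b1 b2 (Fin n × Fin k)) N)
        (fun ρ => s * ∑ i, φ (ρ i)) ≤ N * (B2 s + η1) := by
      rcases hcase with rfl | rfl
      · exact hBa ε hεpos hεa' N hN hne
      · exact hBb ε hεpos hεb' N hN hne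
    refine hk1.trans (mul_le_mul_of_nonneg_left ?_ hN0.le)
    linarith
  · rw [Pf_zero _ φ, hcard]
    have e3 : Pf (beN b1 b2 (Fin n × Fin k)) (fun _ => 0) 0 (lift n k l1 l2 l3) =
          (n : ℝ) * k * Pf (be b1 b2) (fun _ => 0) 0 (l1 ++ (l2 ++ l3)) := hlP
    rw [e3]
    have := mul_le_mul_of_nonneg_left hPf hnk.le
    linarith
  · rw [hcard]
    linarith

end SKC.I
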