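import Pool.Agent.H.MP_08eaf3_pr.Defs2

/-!
# Part I: averages of products over independent spins
-/

set_option autoImplicit false

open MeasureTheory ProbabilityTheory Filter Topology Matrix

namespace SKC.I

variable {K : Type} [Fintype K] [DecidableEq K]

theorem sum_prod_exp (h : K → Bool → ℝ) (z : K → ℝ) :
    ∑ s : K → Bool, (∏ c, h c (s c)) * Real.exp (∑ c, sg (s c) * z c) =
      ∏ c, ∑ b : Bool, h c b * Real.exp (sg b * z c) := by
  have h1 := Finset.prod_univ_sum (fun _ : K => (Finset.univ : Finset Bool))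
    (fun c b => h c b * Real.exp (sg b * z c))
  rw [h1, Fintype.piFinset_univ]
  refine Finset.sum_congr rfl (fun s _ => ?_)
  rw [Real.exp_sum, ← Finset.prod_mul_distrib]

/-- product formula for independent spins -/
theorem spAvg_prod (h : K → Bool → ℝ) (z : K → ℝ) :
    spAvg (fun s => ∏ c, h c (s c)) z =
      ∏ c, ((∑ b : Bool, h c b * Real.exp (sg b * z c)) / (∑ b : Bool, Real.exp (sg b * z c))) := by
  unfold spAvg
  rw [sum_prod_exp, Finset.prod_div_distrib]
  congr 1
  have h1 := sum_prod_exp (fun _ _ => (1 : ℝ)) z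
  simp only [Finset.prod_const_one, one_mul] at h1
  exact h1

theorem two_exp_pos (x : ℝ) : 0 < ∑ b : Bool, Real.exp (sg b * x) :=
  Finset.sum_pos (fun _ _ => Real.exp_pos _) Finset.univ_nonempty

theorem tanh_eq (x : ℝ) : (∑ b : Bool, sg b * Real.exp (sg b * x)) / (∑ b : Bool, Real.exp (sg b * x)) =
    Real.tanh x := by
  simp only [Fintype.sum_bool, sg]
  rw [Real.tanh_eq_sinh_div_cosh, Real.sinh_eq, Real.cosh_eq]
  simp only [if_true]
  have h1 : (if false = true then (1 : ℝ) else -1) = -1 := by simp
  rw [h1]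
  simp only [one_mul, neg_mul]
  have h2 : Real.exp x + Real.exp (-x) ≠ 0 := by positivity
  field_simp
  ring

theorem spAvg_one : spAvg (fun _ : K → Bool => (1 : ℝ)) = fun _ => 1 := by
  funext z
  unfold spAvg
  have h : 0 < ∑ s : K → Bool, Real.exp (∑ c, sg (s c) * z c) :=
    Finset.sum_pos (fun _ _ => Real.exp_pos _) Finset.univ_nonempty
  simp only [one_mul]
  exact div_self h.ne'

theorem spAvg_sg (c : K) : spAvg (fun s : K → Bool => sg (s c)) = fun z => Real.tanh (z c) := by
  funext z
  have e : (fun s : K → Bool => sg (s c)) = fun s => ∏ d, (if d = c then sg else fun _ => (1 : ℝ)) (s d) := by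
    funext s
    rw [Finset.prod_eq_single c]
    · simp
    · intro d _ hd
      simp [hd]
    · intro h
      exact absurd (Finset.mem_univ c) h
  rw [e, spAvg_prod, Finset.prod_eq_single c]
  · simp only [if_true]
    exact tanh_eq (z c)
  · intro d _ hd
    simp only [if_neg hd, one_mul]
    exact div_self (two_exp_pos (z d)).ne'
  · intro h
    exact absurd (Finset.mem_univ c) h

theorem spAvg_sg2 : spAvg (fun s : Fin 2 → Bool => sg (s 0) * sg (s 1)) =
    fun z => Real.tanh (z 0) * Real.tanh (z 1) := by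
  funext z
  have e : (fun s : Fin 2 → Bool => sg (s 0) * sg (s 1)) = fun s => ∏ d, (fun _ : Fin 2 => sg) d (s d) := by
    funext s
    rw [Fin.prod_univ_two]
  rw [e, spAvg_prod, Fin.prod_univ_two, tanh_eq, tanh_eq]

end SKC.I
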