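import Pool.Agent.H.MP_08eaf3_pr.I.Gen
import Pool.Agent.H.MP_08eaf3_pr.I.SpAvg

/-!
# Part I: I2 (i), overlaps
-/

set_option autoImplicit false

open MeasureTheory ProbabilityTheory Filter Topology Matrix

namespace SKC.I

theorem abs_sg_mul (a b : Bool) : |sg a * sg b| ≤ 1 := by
  rw [abs_mul, abs_sg, abs_sg, one_mul]

/-- touching for the product of two spins -/
theorem touch_two (b1 b2 u : ℝ) (hb1 : 0 < b1) (hb2 : 0 < b2) (Q Q' : Matrix (Fin 2) (Fin 2) ℝ)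
    (hT : TreeFull b1 b2 u Q Q') (δ : ℝ) (hδ : 0 ≤ δ) (l1 l2 l3 : List (Step (Fin 2)))
    (hp : PairPath b1 b2 u Q Q' δ l1 l2 l3) (n k : ℕ) (hn : 0 < n) (hk : 0 < k)
    (p q : (Fin n × Fin k) × Fin 2) (t : ℝ) (ht : 0 < t) :
    |ChE (beN b1 b2 (Fin n × Fin k)) (lift n k l1 l2 l3) F0
        (spAvg (fun s => sg (s p) * sg (s q))) 0 - treeM n k u Q Q' p q| ≤
      4 * ((n * k : ℝ) * δ) / t + t := by
  obtain ⟨hv, hne3, hQ1, hQ2, hQ3, hPf⟩ := hp
  have hlv := lift_valid n k hn hk l1 l2 l3 hv hne3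
  have hlQ := Qtot_lift n k hn hk l1 l2 l3
  rw [hQ1, hQ2, hQ3] at hlQ
  have hlP := Pf_lift (be b1 b2) n k hn hk l1 l2 l3 hv
  have hnk : (0 : ℝ) < n * k := by
    have h1 : (0 : ℝ) < n := by exact_mod_cast hn
    have h2 : (0 : ℝ) < k := by exact_mod_cast hk
    exact mul_pos h1 h2
  have hb0 : ∀ p, 0 ≤ beN b1 b2 (Fin n × Fin k) p := fun p => (be_pos hb1 hb2 p.2).le
  set c0 : ℝ := Pf (beN b1 b2 (Fin n × Fin k)) (fun _ => 0) 0 (lift n k l1 l2 l3) with hc0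
  have e3 : c0 = (n : ℝ) * k * Pf (be b1 b2) (fun _ => 0) 0 (l1 ++ (l2 ++ l3)) := hlP
  refine touch_gen b1 b2 u hb1 hb2 Q Q' hT δ hδ l1 l2 l3 ⟨hv, hne3, hQ1, hQ2, hQ3, hPf⟩ n k hn hk
    (fun s => sg (s p) * sg (s q)) (fun s => abs_sg_mul _ _)
    (fun s => c0 + s * treeM n k u Q Q' p q) (treeM n k u Q Q' p q) ?_ ?_ ?_ t ht
  · intro s
    have := sq_nonneg s
    simp only [zero_mul, add_zero]
    linarith
  · simp only [zero_mul, add_zero]
    rw [e3]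
    exact mul_le_mul_of_nonneg_left hPf hnk.le
  · intro s η hη
    set S : ℝ := ∑ c, beN b1 b2 (Fin n × Fin k) c with hS
    set A : ℝ := S ^ 2 / 2 + |s| with hA
    have hA0 : 0 ≤ A := by positivity
    refine ⟨min 1 (η / (A + 1)), lt_min one_pos (by positivity), ?_⟩
    intro ε hε hε1 N hN hne
    have hN0 : (0 : ℝ) < N := by exact_mod_cast hN
    have hε2 : ε ≤ 1 := hε1.trans (min_le_left _ _)
    have hε3 : ε ≤ η / (A + 1) := hε1.trans (min_le_right _ _)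
    have hε4 : A * ε ≤ η := by
      rw [le_div_iff₀ (by positivity)] at hε3
      nlinarith
    have hg := guerra (beN b1 b2 (Fin n × Fin k)) hb0 (fun _ => 0) 0 (lift n k l1 l2 l3) hlv ε
        hε.le N hN _ hne
        (fun ρ hρ c c' => by
          have h5 := (mem_near _ _ _).1 hρ c c'
          rw [hlQ]
          exact h5)
    have e4 : (fun ρ : Cfg ((Fin n × Fin k) × Fin 2) N => (0 : ℝ) * ∑ i, (fun _ => (0 : ℝ)) (ρ i)) =
        fun _ => 0 := by funext ρ; simp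
    rw [e4] at hg
    have h1 : EL (near (N := N) (treeM n k u Q Q') ε) (vH (beN b1 b2 (Fin n × Fin k)) N)
        (fun ρ => s * ∑ i, sg (ρ i p) * sg (ρ i q)) ≤
        EL (near (N := N) (treeM n k u Q Q') ε) (vH (beN b1 b2 (Fin n × Fin k)) N)
        (fun _ => 0 + N * (s * treeM n k u Q Q' p q + |s| * ε)) := by
      apply EL_mono hne
      intro ρ hρ
      have h5 := (mem_near _ _ _).1 hρ p q
      have h6 : ∑ i, sg (ρ i p) * sg (ρ i q) = N * ov ρ ρ p q := by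
        unfold ov
        field_simp
      rw [h6, zero_add]
      have h7 : s * (N * ov ρ ρ p q) = N * (s * treeM n k u Q Q' p q + s * (ov ρ ρ p q - treeM n k u Q Q' p q)) := by
        ring
      rw [h7]
      apply mul_le_mul_of_nonneg_left _ hN0.le
      have h8 : s * (ov ρ ρ p q - treeM n k u Q Q' p q) ≤ |s| * ε := by
        calc s * (ov ρ ρ p q - treeM n k u Q Q' p q) ≤ |s * (ov ρ ρ p q - treeM n k u Q Q' p q)| := le_abs_self _
          _ = |s| * |ov ρ ρ p q - treeM n k u Q Q' p q| := abs_mul _ _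
          _ ≤ |s| * ε := mul_le_mul_of_nonneg_left h5 (abs_nonneg _)
      linarith
    have h2 := EL_add_const hne (vH (beN b1 b2 (Fin n × Fin k)) N) (fun _ => (0 : ℝ))
      (N * (s * treeM n k u Q Q' p q + |s| * ε))
    rw [h2] at h1
    refine h1.trans ?_
    have h10 : (N : ℝ) / 2 * (∑ c, beN b1 b2 (Fin n × Fin k) c) ^ 2 * ε ^ 2 =
        N * (S ^ 2 / 2 * ε ^ 2) := by rw [hS]; ring
    rw [h10] at hg
    have h11 : S ^ 2 / 2 * ε ^ 2 + |s| * ε ≤ η := by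
      have h12 : ε ^ 2 ≤ ε := by nlinarith
      have h13 : S ^ 2 / 2 * ε ^ 2 ≤ S ^ 2 / 2 * ε := mul_le_mul_of_nonneg_left h12 (by positivity)
      have h14 : A * ε = S ^ 2 / 2 * ε + |s| * ε := by rw [hA]; ring
      linarith
    have h15 := mul_le_mul_of_nonneg_left h11 hN0.le
    rw [← hc0] at hg
    nlinarith

/-- optimisation over `t` -/
theorem opt_t {x δ : ℝ} (hδ : 0 ≤ δ) (h : ∀ t, 0 < t → |x| ≤ 8 * δ / t + t) : |x| ≤ 6 * Real.sqrt δ := by
  rcases hδ.eq_or_lt with h0 | h0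
  · subst h0
    rw [Real.sqrt_zero, mul_zero]
    refine le_of_forall_pos_le_add (fun t ht => ?_)
    have := h t ht
    simp only [mul_zero, zero_div] at this
    exact this
  · have hs : 0 < Real.sqrt δ := Real.sqrt_pos.2 h0
    have h1 := h (3 * Real.sqrt δ) (by positivity)
    have h2 : 8 * δ / (3 * Real.sqrt δ) = 8 / 3 * Real.sqrt δ := by
      have h3 : δ = Real.sqrt δ * Real.sqrt δ := (Real.mul_self_sqrt hδ).symm
      field_simp
      rw [Real.sq_sqrt hδ]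
    rw [h2] at h1
    linarith

theorem touch_low (b1 b2 u : ℝ) (hb1 : 0 < b1) (hb2 : 0 < b2) (Q Q' : Matrix (Fin 2) (Fin 2) ℝ)
    (hT : TreeFull b1 b2 u Q Q') (δ : ℝ) (hδ : 0 ≤ δ) (l1 l2 l3 : List (Step (Fin 2)))
    (hp : PairPath b1 b2 u Q Q' δ l1 l2 l3) (c c' : Fin 2) :
    |ChE (be b1 b2) l1 (PsiL (be b1 b2) (l2 ++ l3) F0)
        (fun z => Mg (be b1 b2) (l2 ++ l3) c z * Mg (be b1 b2) (l2 ++ l3) c' z) 0 - Q c c'| ≤
      6 * Real.sqrt δ := by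
  apply opt_t hδ
  intro t ht
  have h := touch_two b1 b2 u hb1 hb2 Q Q' hT δ hδ l1 l2 l3 hp 2 1 (by norm_num) (by norm_num)
    ((0, 0), c) ((1, 0), c') t ht
  have e1 := ChE_lift (be b1 b2) 2 1 (by norm_num) (by norm_num) l1 l2 l3 hp.1
    (fun i _ s => if i = 0 then sg (s c) else sg (s c'))
  have e2 : (fun s : ((Fin 2 × Fin 1) × Fin 2) → Bool =>
      ∏ i : Fin 2, ∏ a : Fin 1, (fun (i : Fin 2) (_ : Fin 1) (s : Fin 2 → Bool) =>
        if i = 0 then sg (s c) else sg (s c')) i a (fun c => s ((i, a), c))) =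
      fun s => sg (s ((0, 0), c)) * sg (s ((1, 0), c')) := by
    funext s
    rw [Fin.prod_univ_two, Fin.prod_univ_one, Fin.prod_univ_one]
    simp
  rw [e2] at e1
  have e3 : treeM 2 1 u Q Q' ((0, 0), c) ((1, 0), c') = Q c c' := by
    unfold treeM treeG
    simp
  have e4 : ∀ d : Fin 2, (fun z => ChE (be b1 b2) l2 (PsiL (be b1 b2) l3 F0)
      (fun z' => ChE (be b1 b2) l3 F0 (spAvg (fun s : Fin 2 → Bool => sg (s d))) z') z) =
      Mg (be b1 b2) (l2 ++ l3) d := by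
    intro d
    unfold Mg
    rw [ChE_append, spAvg_sg]
  have e5 : ChE (fun p : (Fin 2 × Fin 1) × Fin 2 => be b1 b2 p.2) (lift 2 1 l1 l2 l3) F0
      (spAvg (fun s => sg (s ((0, 0), c)) * sg (s ((1, 0), c')))) 0 =
      ChE (be b1 b2) l1 (PsiL (be b1 b2) (l2 ++ l3) F0)
        (fun z => Mg (be b1 b2) (l2 ++ l3) c z * Mg (be b1 b2) (l2 ++ l3) c' z) 0 := by
    rw [e1]
    congr 1
    funext z
    rw [Fin.prod_univ_two, ← e4 c, ← e4 c']
    simp
  have e6 : ChE (beN b1 b2 (Fin 2 × Fin 1)) (lift 2 1 l1 l2 l3) F0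
      (spAvg (fun s => sg (s ((0, 0), c)) * sg (s ((1, 0), c')))) 0 =
      ChE (be b1 b2) l1 (PsiL (be b1 b2) (l2 ++ l3) F0)
        (fun z => Mg (be b1 b2) (l2 ++ l3) c z * Mg (be b1 b2) (l2 ++ l3) c' z) 0 := e5
  rw [e6, e3] at h
  refine h.trans (le_of_eq ?_)
  push_cast
  ring

theorem touch_high (b1 b2 u : ℝ) (hb1 : 0 < b1) (hb2 : 0 < b2) (Q Q' : Matrix (Fin 2) (Fin 2) ℝ)
    (hT : TreeFull b1 b2 u Q Q') (δ : ℝ) (hδ : 0 ≤ δ) (l1 l2 l3 : List (Step (Fin 2)))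
    (hp : PairPath b1 b2 u Q Q' δ l1 l2 l3) (c c' : Fin 2) :
    |ChE (be b1 b2) (l1 ++ l2) (PsiL (be b1 b2) l3 F0)
        (fun z => Mg (be b1 b2) l3 c z * Mg (be b1 b2) l3 c' z) 0 - Q' c c'| ≤
      6 * Real.sqrt δ := by
  apply opt_t hδ
  intro t ht
  have h := touch_two b1 b2 u hb1 hb2 Q Q' hT δ hδ l1 l2 l3 hp 1 2 (by norm_num) (by norm_num)
    ((0, 0), c) ((0, 1), c') t ht
  have e1 := ChE_lift (be b1 b2) 1 2 (by norm_num) (by norm_num) l1 l2 l3 hp.1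
    (fun _ a s => if a = 0 then sg (s c) else sg (s c'))
  have e2 : (fun s : ((Fin 1 × Fin 2) × Fin 2) → Bool =>
      ∏ i : Fin 1, ∏ a : Fin 2, (fun (_ : Fin 1) (a : Fin 2) (s : Fin 2 → Bool) =>
        if a = 0 then sg (s c) else sg (s c')) i a (fun c => s ((i, a), c))) =
      fun s => sg (s ((0, 0), c)) * sg (s ((0, 1), c')) := by
    funext s
    rw [Fin.prod_univ_one, Fin.prod_univ_two]
    simp
  rw [e2] at e1
  have e3 : treeM 1 2 u Q Q' ((0, 0), c) ((0, 1), c') = Q' c c' := by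
    unfold treeM treeG
    simp
  have e4 : ∀ d : Fin 2, ChE (be b1 b2) l3 F0 (spAvg (fun s : Fin 2 → Bool => sg (s d))) =
      Mg (be b1 b2) l3 d := by
    intro d
    unfold Mg
    rw [spAvg_sg]
  have e5 : ChE (fun p : (Fin 1 × Fin 2) × Fin 2 => be b1 b2 p.2) (lift 1 2 l1 l2 l3) F0
      (spAvg (fun s => sg (s ((0, 0), c)) * sg (s ((0, 1), c')))) 0 =
      ChE (be b1 b2) (l1 ++ l2) (PsiL (be b1 b2) l3 F0)
        (fun z => Mg (be b1 b2) l3 c z * Mg (be b1 b2) l3 c' z) 0 := by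
    rw [e1, ChE_append, ← PsiL_append]
    congr 1
    funext z
    rw [Fin.prod_univ_one]
    congr 1
    funext z'
    rw [Fin.prod_univ_two, ← e4 c, ← e4 c']
    simp
  have e6 : ChE (beN b1 b2 (Fin 1 × Fin 2)) (lift 1 2 l1 l2 l3) F0
      (spAvg (fun s => sg (s ((0, 0), c)) * sg (s ((0, 1), c')))) 0 =
      ChE (be b1 b2) (l1 ++ l2) (PsiL (be b1 b2) l3 F0)
        (fun z => Mg (be b1 b2) l3 c z * Mg (be b1 b2) l3 c' z) 0 := e5
  rw [e6, e3] at h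
  refine h.trans (le_of_eq ?_)
  push_cast
  ring

theorem touch_pair (b1 b2 u : ℝ) (hb1 : 0 < b1) (hb2 : 0 < b2) (Q Q' : Matrix (Fin 2) (Fin 2) ℝ)
    (hT : TreeFull b1 b2 u Q Q') (δ : ℝ) (hδ : 0 ≤ δ) (l1 l2 l3 : List (Step (Fin 2)))
    (hp : PairPath b1 b2 u Q Q' δ l1 l2 l3) :
    |ChE (be b1 b2) (l1 ++ (l2 ++ l3)) F0 (fun z => Real.tanh (z 0) * Real.tanh (z 1)) 0 - u| ≤
      6 * Real.sqrt δ := by
  apply opt_t hδ
  intro t ht
  have h := touch_two b1 b2 u hb1 hb2 Q Q' hT δ hδ l1 l2 l3 hp 1 1 (by norm_num) (by norm_num)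
    ((0, 0), 0) ((0, 0), 1) t ht
  have e1 := ChE_lift (be b1 b2) 1 1 (by norm_num) (by norm_num) l1 l2 l3 hp.1
    (fun _ _ s => sg (s 0) * sg (s 1))
  have e2 : (fun s : ((Fin 1 × Fin 1) × Fin 2) → Bool =>
      ∏ i : Fin 1, ∏ a : Fin 1, (fun (_ : Fin 1) (_ : Fin 1) (s : Fin 2 → Bool) =>
        sg (s 0) * sg (s 1)) i a (fun c => s ((i, a), c))) =
      fun s => sg (s ((0, 0), 0)) * sg (s ((0, 0), 1)) := by
    funext s
    rw [Fin.prod_univ_one, Fin.prod_univ_one]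
  rw [e2] at e1
  have e3 : treeM 1 1 u Q Q' ((0, 0), 0) ((0, 0), 1) = u := by
    unfold treeM treeG mat
    simp
  have e5 : ChE (fun p : (Fin 1 × Fin 1) × Fin 2 => be b1 b2 p.2) (lift 1 1 l1 l2 l3) F0
      (spAvg (fun s => sg (s ((0, 0), 0)) * sg (s ((0, 0), 1)))) 0 =
      ChE (be b1 b2) (l1 ++ (l2 ++ l3)) F0 (fun z => Real.tanh (z 0) * Real.tanh (z 1)) 0 := by
    rw [e1, ChE_append, ChE_append]
    congr 1
    funext z
    rw [Fin.prod_univ_one]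
    congr 1
    funext z'
    rw [Fin.prod_univ_one, spAvg_sg2]
  have e6 : ChE (beN b1 b2 (Fin 1 × Fin 1)) (lift 1 1 l1 l2 l3) F0
      (spAvg (fun s => sg (s ((0, 0), 0)) * sg (s ((0, 0), 1)))) 0 =
      ChE (be b1 b2) (l1 ++ (l2 ++ l3)) F0 (fun z => Real.tanh (z 0) * Real.tanh (z 1)) 0 := e5
  rw [e6, e3] at h
  refine h.trans ?_
  push_cast
  have h8 : 4 * (1 * 1 * δ) / t ≤ 8 * δ / t := by
    apply div_le_div_of_nonneg_right _ ht.le
    linarith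
  linarith

end SKC.I
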