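import Pool.Agent.H.MP_08eaf3_pr.I.TouchA

/-!
# Part I: I2 (ii), comparison with the single system
-/

set_option autoImplicit false

open MeasureTheory ProbabilityTheory Filter Topology Matrix

namespace SKC.I

/-- the free energy is bounded by the Parisi infimum (Guerra bound for the single system) -/
theorem FN_le_Fo (b : ℝ) (hb : 0 < b) (N : ℕ) (hN : 0 < N) : FN b N ≤ Fo b := by
  have hN0 : (0 : ℝ) < N := by exact_mod_cast hN
  have hne : {x : ℝ | ∃ l : List (Step Unit), Valid l ∧ Qtot l = 1 ∧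
      x = Pf (fun _ => b) (fun _ => 0) 0 l}.Nonempty := by
    refine ⟨_, [((1 : ℝ), (1 : Matrix Unit Unit ℝ))], ⟨?_, ?_, [], 1, rfl⟩, ?_, rfl⟩
    · exact List.pairwise_singleton _ _
    · intro a ha
      rw [List.mem_singleton] at ha
      subst ha
      norm_num
    · simp [Qtot]
  unfold Fo
  apply le_csInf hne
  rintro x ⟨l, hv, hQ, rfl⟩
  have hg := guerra (fun _ : Unit => b) (fun _ => hb.le) (fun _ => 0) 0 l hv 0 le_rfl N hN
    (Finset.univ : Finset (Cfg Unit N)) Finset.univ_nonempty (fun ρ _ c c' => by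
      rw [hQ]
      have h1 : ov ρ ρ c c' = 1 := by
        unfold ov
        have h2 : ∀ i : Fin N, sg (ρ i c) * sg (ρ i c') = 1 := by
          intro i
          have : c = c' := Subsingleton.elim _ _
          subst this
          unfold sg
          split_ifs <;> norm_num
        simp only [h2]
        rw [Finset.sum_const, Finset.card_univ, Fintype.card_fin, nsmul_eq_mul, mul_one]
        exact div_self hN0.ne'
      have h3 : (1 : Matrix Unit Unit ℝ) c c' = 1 := by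
        have : c = c' := Subsingleton.elim _ _
        subst this
        simp
      rw [h1, h3]
      simp)
  have e4 : (fun ρ : Cfg Unit N => (0 : ℝ) * ∑ i, (fun _ => (0 : ℝ)) (ρ i)) = fun _ => 0 := by
    funext ρ; simp
  rw [e4] at hg
  unfold FN
  rw [div_le_iff₀ hN0]
  have h5 : (N : ℝ) / 2 * (∑ _c : Unit, b) ^ 2 * 0 ^ 2 = 0 := by ring
  rw [h5, add_zero, mul_comm] at hg
  exact hg

/-- the factor of the member `a` of a group with exponent `m` -/
def fac (k m : ℕ) (a : Fin k) (b : Bool) : ℝ := if (a : ℕ) < m then sg b else 1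

theorem abs_fac (k m : ℕ) (a : Fin k) (b : Bool) : |fac k m a b| ≤ 1 := by
  unfold fac
  split_ifs
  · rw [abs_sg]
  · simp

theorem card_lt (k m : ℕ) (h : m ≤ k) : (Finset.univ.filter (fun a : Fin k => (a : ℕ) < m)).card = m := by
  rw [Fin.card_filter_val_lt]
  exact min_eq_right h

theorem spAvg_fac {K : Type} [Fintype K] [DecidableEq K] (k m : ℕ) (a : Fin k) (c : K) :
    spAvg (fun s : K → Bool => fac k m a (s c)) =
      if (a : ℕ) < m then fun z => Real.tanh (z c) else fun _ => 1 := by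
  unfold fac
  split_ifs
  · exact spAvg_sg c
  · exact spAvg_one

theorem prod_ChE_fac {K : Type} [Fintype K] [DecidableEq K] (β : K → ℝ) (l : List (Step K)) (c : K)
    (k m : ℕ) (h : m ≤ k) (z : K → ℝ) :
    ∏ a : Fin k, ChE β l F0 (spAvg (fun s : K → Bool => fac k m a (s c))) z = Mg β l c z ^ m := by
  have h1 : ∀ a : Fin k, ChE β l F0 (spAvg (fun s : K → Bool => fac k m a (s c))) z =
      if (a : ℕ) < m then Mg β l c z else 1 := by
    intro a
    rw [spAvg_fac]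
    split_ifs
    · rfl
    · rw [ChE_const β l F0 LG_F0 1]
  simp only [h1]
  rw [Finset.prod_ite, Finset.prod_const, Finset.prod_const_one, mul_one, card_lt k m h]

/-- evaluation of the chain of the lift -/
theorem ChE_lift_fac {K : Type} [Fintype K] [DecidableEq K] (β : K → ℝ) (n k : ℕ) (hn : 0 < n)
    (hk : 0 < k) (l1 l2 l3 : List (Step K)) (hl : Valid (l1 ++ (l2 ++ l3))) (c : K) (e : Fin n → ℕ)
    (he : ∀ i, e i ≤ k) :
    ChE (fun p : (Fin n × Fin k) × K => β p.2) (lift n k l1 l2 l3) F0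
        (spAvg (fun s => ∏ i, ∏ a, fac k (e i) a (s ((i, a), c)))) 0 =
      ChE β l1 (PsiL β (l2 ++ l3) F0) (fun z => ∏ i, Vv β l2 l3 c (e i) z) 0 := by
  have h := ChE_lift β n k hn hk l1 l2 l3 hl (fun i a s => fac k (e i) a (s c))
  rw [h]
  congr 1
  funext z
  refine Finset.prod_congr rfl (fun i _ => ?_)
  unfold Vv
  congr 1
  funext z'
  exact prod_ChE_fac β l3 c k (e i) (he i) z'

theorem touch_single_t (b1 b2 u : ℝ) (hb1 : 0 < b1) (hb2 : 0 < b2)
    (Q Q' : Matrix (Fin 2) (Fin 2) ℝ)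
    (hT : TreeFull b1 b2 u Q Q') (n k : ℕ) (hn : 0 < n) (hk : 0 < k) (e : Fin n → ℕ)
    (he : ∀ i, e i ≤ k) (δ : ℝ) (hδ : 0 ≤ δ) (l1 l2 l3 : List (Step (Fin 2)))
    (hp : PairPath b1 b2 u Q Q' δ l1 l2 l3) (c : Fin 2) (s1 s2 s3 : List (Step Unit))
    (hs : SinglePath (be b1 b2 c) (Q c c) (Q' c c) δ s1 s2 s3) (t : ℝ) (ht : 0 < t) :
    |ChE (be b1 b2) l1 (PsiL (be b1 b2) (l2 ++ l3) F0)
          (fun z => ∏ i, Vv (be b1 b2) l2 l3 c (e i) z) 0 -
        ChE (fun _ : Unit => be b1 b2 c) s1 (PsiL (fun _ : Unit => be b1 b2 c) (s2 ++ s3) F0)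
          (fun z => ∏ i, Vv (fun _ : Unit => be b1 b2 c) s2 s3 () (e i) z) 0| ≤
      4 * ((n * k : ℝ) * δ) / t + t := by
  obtain ⟨c', hc⟩ : ∃ c' : Fin 2, c ≠ c' := by
    fin_cases c
    · exact ⟨1, by simp⟩
    · exact ⟨0, by simp⟩
  have hsum : Fo (be b1 b2 c) + Fo (be b1 b2 c') = Fo b1 + Fo b2 := by
    have h1 := sum_two hc (fun d => Fo (be b1 b2 d))
    rw [Fin.sum_univ_two] at h1
    rw [← h1]
    simp [be]
  have hbc := be_pos hb1 hb2 c
  have hbc' := be_pos hb1 hb2 c'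
  have hnk : (0 : ℝ) < n * k := by
    have h1 : (0 : ℝ) < n := by exact_mod_cast hn
    have h2 : (0 : ℝ) < k := by exact_mod_cast hk
    exact mul_pos h1 h2
  obtain ⟨sv, sne, sQ1, sQ2, sQ3, sPf⟩ := hs
  have slv := lift_valid n k hn hk s1 s2 s3 sv sne
  have slQ := Qtot_lift n k hn hk s1 s2 s3
  rw [sQ1, sQ2, sQ3] at slQ
  have slP := Pf_lift (fun _ : Unit => be b1 b2 c) n k hn hk s1 s2 s3 sv
  let φ1 : ((Fin n × Fin k) × Unit → Bool) → ℝ := fun s => ∏ i, ∏ a, fac k (e i) a (s ((i, a), ()))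
  let φ : ((Fin n × Fin k) × Fin 2 → Bool) → ℝ := fun s => ∏ i, ∏ a, fac k (e i) a (s ((i, a), c))
  have hφ1 : ∀ s, |φ1 s| ≤ 1 := by
    intro s
    simp only [φ1]
    rw [Finset.abs_prod]
    apply Finset.prod_le_one (fun i _ => abs_nonneg _)
    intro i _
    rw [Finset.abs_prod]
    exact Finset.prod_le_one (fun a _ => abs_nonneg _) (fun a _ => abs_fac _ _ _ _)
  have hφ : ∀ s, |φ s| ≤ 1 := by
    intro s
    simp only [φ]
    rw [Finset.abs_prod]
    apply Finset.prod_le_one (fun i _ => abs_nonneg _)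
    intro i _
    rw [Finset.abs_prod]
    exact Finset.prod_le_one (fun a _ => abs_nonneg _) (fun a _ => abs_fac _ _ _ _)
  let βs : (Fin n × Fin k) × Unit → ℝ := fun _ => be b1 b2 c
  have hd1 := ChE_lift_fac (be b1 b2) n k hn hk l1 l2 l3 hp.1 c e he
  have hd2 := ChE_lift_fac (fun _ : Unit => be b1 b2 c) n k hn hk s1 s2 s3 sv () e he
  have hmain := touch_gen b1 b2 u hb1 hb2 Q Q' hT δ hδ l1 l2 l3 hp n k hn hk φ hφ
    (fun s => Pf βs φ1 s (lift n k s1 s2 s3) + (n * k : ℝ) * Fo (be b1 b2 c'))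
    (ChE βs (lift n k s1 s2 s3) F0 (spAvg φ1) 0) ?_ ?_ ?_ t ht
  · have hd1' : ChE (beN b1 b2 (Fin n × Fin k)) (lift n k l1 l2 l3) F0 (spAvg φ) 0 =
        ChE (be b1 b2) l1 (PsiL (be b1 b2) (l2 ++ l3) F0)
          (fun z => ∏ i, Vv (be b1 b2) l2 l3 c (e i) z) 0 := hd1
    have hd2' : ChE βs (lift n k s1 s2 s3) F0 (spAvg φ1) 0 =
        ChE (fun _ : Unit => be b1 b2 c) s1 (PsiL (fun _ : Unit => be b1 b2 c) (s2 ++ s3) F0)
          (fun z => ∏ i, Vv (fun _ : Unit => be b1 b2 c) s2 s3 () (e i) z) 0 := hd2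
    rw [hd1', hd2'] at hmain
    exact hmain
  · intro s
    have h := Pf_expand βs φ1 hφ1 s (lift n k s1 s2 s3) slv
    rw [← Pf_zero βs φ1] at h
    linarith
  · have h5 : Pf βs φ1 0 (lift n k s1 s2 s3) =
        (n : ℝ) * k * Pf (fun _ : Unit => be b1 b2 c) (fun _ => 0) 0 (s1 ++ (s2 ++ s3)) := by
      rw [Pf_zero]
      exact slP
    rw [h5]
    have h6 := mul_le_mul_of_nonneg_left sPf hnk.le
    have h7 : (n * k : ℝ) * (Fo b1 + Fo b2 + δ) =
        (n * k : ℝ) * (Fo (be b1 b2 c) + δ) + (n * k : ℝ) * Fo (be b1 b2 c') := by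
      rw [← hsum]; ring
    rw [h7]
    linarith
  · intro s η hη
    set S : ℝ := ∑ p, βs p with hS
    refine ⟨Real.sqrt (2 * η / (S ^ 2 + 1)), Real.sqrt_pos.2 (by positivity), ?_⟩
    intro ε hε hε1 N hN hne
    have hN0 : (0 : ℝ) < N := by exact_mod_cast hN
    obtain ⟨hne1, hle⟩ := EL_tree_le b1 b2 u Q Q' n k c c' hc ε N hN hne φ1 s
    have hg := guerra βs (fun _ => hbc.le) φ1 s (lift n k s1 s2 s3) slv ε hε.le N hN _ hne1
      (fun ρ hρ p q => by
        have h5 := (mem_near _ _ _).1 hρ p q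
        rw [slQ]
        have h6 : treeG n k (1 : Matrix Unit Unit ℝ) (fun _ _ => Q c c) (fun _ _ => Q' c c) p q =
            treeG n k (fun _ _ => (1 : ℝ)) (fun _ _ => Q c c) (fun _ _ => Q' c c) p q := by
          unfold treeG
          have : (1 : Matrix Unit Unit ℝ) p.2 q.2 = 1 := by
            have : p.2 = q.2 := Subsingleton.elim _ _
            rw [this]
            simp
          rw [this]
        rw [h6]
        exact h5)
    have hF := FN_le_Fo (be b1 b2 c') hbc' N hN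
    have h8 : (n : ℝ) * k * (N * FN (be b1 b2 c') N) ≤ N * ((n * k : ℝ) * Fo (be b1 b2 c')) := by
      have := mul_le_mul_of_nonneg_left hF (mul_nonneg hnk.le hN0.le)
      linarith
    have h9 : S ^ 2 / 2 * ε ^ 2 ≤ η := by
      have h10 : ε ^ 2 ≤ 2 * η / (S ^ 2 + 1) := by
        have := pow_le_pow_left₀ hε.le hε1 2
        rw [Real.sq_sqrt (by positivity)] at this
        exact this
      have h11 : S ^ 2 / 2 * ε ^ 2 ≤ S ^ 2 / 2 * (2 * η / (S ^ 2 + 1)) :=
        mul_le_mul_of_nonneg_left h10 (by positivity)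
      have h12 : S ^ 2 / 2 * (2 * η / (S ^ 2 + 1)) = η * (S ^ 2 / (S ^ 2 + 1)) := by ring
      have h13 : S ^ 2 / (S ^ 2 + 1) ≤ 1 := by
        rw [div_le_one (by positivity)]; linarith
      nlinarith
    have h14 : (N : ℝ) / 2 * (∑ p, βs p) ^ 2 * ε ^ 2 = N * (S ^ 2 / 2 * ε ^ 2) := by rw [hS]; ring
    rw [h14] at hg
    have h15 := mul_le_mul_of_nonneg_left h9 hN0.le
    have hle' : EL (near (N := N) (treeM n k u Q Q') ε) (vH (beN b1 b2 (Fin n × Fin k)) N)
        (fun ρ => s * ∑ i, φ (ρ i)) ≤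
      EL (near (K := (Fin n × Fin k) × Unit) (N := N)
          (treeG n k (fun _ _ => 1) (fun _ _ => Q c c) (fun _ _ => Q' c c)) ε)
        (vH (fun _ => be b1 b2 c) N) (fun ρ => s * ∑ i, φ1 (ρ i)) +
      (n : ℝ) * k * (N * FN (be b1 b2 c') N) := hle
    have hg' : EL (near (K := (Fin n × Fin k) × Unit) (N := N)
          (treeG n k (fun _ _ => 1) (fun _ _ => Q c c) (fun _ _ => Q' c c)) ε)
        (vH (fun _ => be b1 b2 c) N) (fun ρ => s * ∑ i, φ1 (ρ i)) ≤
        N * Pf βs φ1 s (lift n k s1 s2 s3) + N * (S ^ 2 / 2 * ε ^ 2) := hg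
    have h16 : (N : ℝ) * (Pf βs φ1 s (lift n k s1 s2 s3) + (n * k : ℝ) * Fo (be b1 b2 c') + η) =
        N * Pf βs φ1 s (lift n k s1 s2 s3) + N * ((n * k : ℝ) * Fo (be b1 b2 c')) + N * η := by ring
    rw [h16]
    linarith

/-- optimisation over `t` -/
theorem opt_t' {x A δ : ℝ} (hδ : 0 ≤ δ) (h : ∀ t, 0 < t → |x| ≤ A * δ / t + t) :
    |x| ≤ (A + 1) * Real.sqrt δ := by
  rcases hδ.eq_or_lt with h0 | h0
  · subst h0
    rw [Real.sqrt_zero, mul_zero]
    refine le_of_forall_pos_le_add (fun t ht => ?_)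
    have := h t ht
    simp only [mul_zero, zero_div] at this
    exact this
  · have hs : 0 < Real.sqrt δ := Real.sqrt_pos.2 h0
    have h1 := h (Real.sqrt δ) hs
    have h2 : A * δ / Real.sqrt δ = A * Real.sqrt δ := by
      rw [mul_div_assoc, Real.div_sqrt]
    rw [h2] at h1
    linarith

theorem touch_single (b1 b2 u : ℝ) (hb1 : 0 < b1) (hb2 : 0 < b2)
    (Q Q' : Matrix (Fin 2) (Fin 2) ℝ)
    (hT : TreeFull b1 b2 u Q Q') (n : ℕ) (e : Fin n → ℕ) :
    ∃ C : ℝ, 0 ≤ C ∧ ∀ δ : ℝ, 0 ≤ δ → ∀ l1 l2 l3 : List (Step (Fin 2)),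
      PairPath b1 b2 u Q Q' δ l1 l2 l3 → ∀ c : Fin 2, ∀ s1 s2 s3 : List (Step Unit),
      SinglePath (be b1 b2 c) (Q c c) (Q' c c) δ s1 s2 s3 →
      |ChE (be b1 b2) l1 (PsiL (be b1 b2) (l2 ++ l3) F0)
          (fun z => ∏ i, Vv (be b1 b2) l2 l3 c (e i) z) 0 -
        ChE (fun _ : Unit => be b1 b2 c) s1 (PsiL (fun _ : Unit => be b1 b2 c) (s2 ++ s3) F0)
          (fun z => ∏ i, Vv (fun _ : Unit => be b1 b2 c) s2 s3 () (e i) z) 0| ≤
        C * Real.sqrt δ := by
  rcases Nat.eq_zero_or_pos n with h0 | hn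
  · subst h0
    refine ⟨0, le_rfl, ?_⟩
    intro δ hδ l1 l2 l3 hp c s1 s2 s3 hs
    have h1 : (fun z : Fin 2 → ℝ => ∏ i : Fin 0, Vv (be b1 b2) l2 l3 c (e i) z) = fun _ => 1 := by
      funext z; simp
    have h2 : (fun z : Unit → ℝ => ∏ i : Fin 0, Vv (fun _ : Unit => be b1 b2 c) s2 s3 () (e i) z) =
        fun _ => 1 := by
      funext z; simp
    rw [h1, h2, ChE_const _ _ _ (LG_PsiL _ _ _ LG_F0), ChE_const _ _ _ (LG_PsiL _ _ _ LG_F0)]
    simp
  · let k : ℕ := (∑ i, e i) + 1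
    have hk : 0 < k := Nat.succ_pos _
    have he : ∀ i, e i ≤ k := fun i =>
      (Finset.single_le_sum (f := e) (fun _ _ => Nat.zero_le _) (Finset.mem_univ i)).trans
        (Nat.le_succ _)
    refine ⟨4 * (n * k : ℝ) + 1, by positivity, ?_⟩
    intro δ hδ l1 l2 l3 hp c s1 s2 s3 hs
    apply opt_t' hδ
    intro t ht
    have h := touch_single_t b1 b2 u hb1 hb2 Q Q' hT n k hn hk e he δ hδ l1 l2 l3 hp c s1 s2 s3 hs t ht
    rw [← mul_assoc] at h
    exact h

end SKC.I
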